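import Pool.Agent.Q90.PI.All

/-!
# MP_ede089: all slices of spherically symmetric spacetimes

The spacetime is `Q × S²`, `Q` an open subset of the `(u, v)`-plane, with the metric
`-w du dv + r² dσ²`, whose Einstein tensor has nonnegative components `uu`, `vv`, `uv` (a part of the
dominant energy condition). The slice is `x ↦ (U x, V x, x/‖x‖)`, `x ∈ ℝ³ ∖ 0`, with arbitrary smooth
functions `U`, `V` such that the induced metric is positive definite; no symmetry is assumed. The end
`E₁` is `‖x‖ → ∞`, the other end is `x → 0`.

The definitions are in `Pool.Agent.Q90.PI.Def` and `Pool.Agent.Q90.PI.Two` (`Admissible`, `OuterEnd`),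
`Pool.Agent.Q90.PI.Def2` (`leastArea`).

Proof idea: let `x₀` be a point with the least `U` among the points of the slice which do not satisfy
`∂_u r < 0 < ∂_v r`. Then `∂_v r = 0` or `∂_u r = 0` at `x₀`, the Hawking mass of the sphere of symmetry
through `x₀` is `r/2` and at most `m`, and the equation of Raychaudhuri shows that
`r ≤ r(x₀)` on the null hypersurface `{U = U x₀}` or `{V = V x₀}`, which meets the slice in a sphere that separates the
ends.
-/

set_option autoImplicit false

open Filter Topology
open Pool.Agent.Q90.PI

namespace Pool.Agent.Results.MP_ede089_mp.SphericalSpacetimes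

/-- **The Penrose inequality for the slices of spherically symmetric spacetimes with two ends.** -/
theorem result :
    (∀ (S : Spacetime) (U V : E → ℝ) (m : ℝ), Energy S → IsSlice S U V → OuterEnd S U V m →
      Tendsto (fun x => S.r (U x, V x)) (𝓝[≠] 0) atTop →
      0 < m ∧ leastArea S U V ∅ ≠ ⊤ ∧
        √((leastArea S U V ∅).toReal / (16 * Real.pi)) ≤ m) ∧
    (∀ (S : Spacetime) (U V : E → ℝ) (m : ℝ), IsSlice S U V → FlatEnd S U V m →
      OuterEnd S U V m) :=
  ⟨fun _ _ _ _ hE h hend h0 => two hE h hend h0, fun _ _ _ _ h hflat => flatEnd_outer h hflat⟩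

end Pool.Agent.Results.MP_ede089_mp.SphericalSpacetimes
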